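import Mathlib

namespace Pool.Agent.H388Z.QT

open Polynomial UniqueFactorizationMonoid

theorem no_param {γ : ℂ} (hγ : γ ≠ 0) {p u : RatFunc ℂ}
    (h : u * (u + algebraMap ℂ (RatFunc ℂ) γ) = p ^ 3) :
    ∃ κ : ℂ, u = algebraMap ℂ (RatFunc ℂ) κ := by
  classical
  obtain ⟨a, ha⟩ : ∃ a, a = u.num := ⟨_, rfl⟩
  obtain ⟨d, hd⟩ : ∃ d, d = u.denom := ⟨_, rfl⟩
  have hd0 : d ≠ 0 := hd ▸ u.denom_ne_zero
  have hd0' : algebraMap ℂ[X] (RatFunc ℂ) d ≠ 0 := by simpa using hd0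
  have hcop : IsCoprime a d := by rw [ha, hd]; exact u.isCoprime_num_denom
  have hu : u * algebraMap ℂ[X] (RatFunc ℂ) d = algebraMap ℂ[X] (RatFunc ℂ) a := by
    rw [ha, hd, ← eq_div_iff (by simpa using u.denom_ne_zero), RatFunc.num_div_denom]
  have hC : ∀ c : ℂ, algebraMap ℂ[X] (RatFunc ℂ) (C c) = algebraMap ℂ (RatFunc ℂ) c := by
    intro c
    rw [IsScalarTower.algebraMap_apply ℂ ℂ[X] (RatFunc ℂ)]; rfl
  by_cases ha0 : a = 0
  · refine ⟨0, ?_⟩
    rw [ha0, map_zero] at hu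
    simpa using (mul_eq_zero.1 hu).resolve_right hd0'
  by_cases hb0 : a + C γ * d = 0
  · refine ⟨-γ, ?_⟩
    have e : a = -(C γ * d) := eq_neg_of_add_eq_zero_left hb0
    rw [e, map_neg, map_mul, hC] at hu
    apply mul_right_cancel₀ hd0'
    rw [hu, map_neg]; ring
  have e1 : (p * algebraMap ℂ[X] (RatFunc ℂ) d) ^ 3 =
      algebraMap ℂ[X] (RatFunc ℂ) (a * (a + C γ * d) * d) := by
    rw [mul_pow, ← h, map_mul, map_mul, map_add, map_mul, hC, ← hu]; ring
  have hint : IsIntegral ℂ[X] (p * algebraMap ℂ[X] (RatFunc ℂ) d) :=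
    IsIntegral.of_pow (n := 3) (by norm_num) (e1 ▸ isIntegral_algebraMap)
  obtain ⟨m, hm⟩ := IsIntegrallyClosed.algebraMap_eq_of_integral hint
  have e2 : m ^ 3 = a * (a + C γ * d) * d := by
    apply IsFractionRing.injective ℂ[X] (RatFunc ℂ)
    rw [map_pow, hm, e1]
  have hCγ : IsUnit (C γ) := isUnit_C.2 (IsUnit.mk0 _ hγ)
  have hgd : C γ * d ≠ 0 := mul_ne_zero hCγ.ne_zero hd0
  have hcop2 : IsCoprime a (C γ * d) := (isCoprime_mul_unit_left_right hCγ a d).2 hcop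
  have habc := Polynomial.abc ha0 hgd (neg_ne_zero.2 hb0) hcop2 (by ring)
  have e3 : a * (C γ * d) * -(a + C γ * d) = -C γ * m ^ 3 := by rw [e2]; ring
  have e4 : radical (a * (C γ * d) * -(a + C γ * d)) = radical m := by
    rw [e3, radical_mul_of_isUnit_left hCγ.neg, radical_pow _ (by norm_num)]
  rw [e4] at habc
  rcases habc with ⟨h1, h2, h3⟩ | ⟨h1, h2, _⟩
  · exfalso
    have h4 : (radical m).natDegree ≤ m.natDegree := natDegree_radical_le
    have h5 := congrArg natDegree e2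
    rw [natDegree_pow, natDegree_mul (mul_ne_zero ha0 hb0) hd0, natDegree_mul ha0 hb0] at h5
    rw [natDegree_neg] at h3
    rw [natDegree_C_mul hγ] at h2
    omega
  · have h3 := natDegree_eq_zero_of_derivative_eq_zero h1
    have h4 := natDegree_eq_zero_of_derivative_eq_zero h2
    rw [natDegree_C_mul hγ] at h4
    obtain ⟨a₀, rfl⟩ := natDegree_eq_zero.1 h3
    obtain ⟨d₀, rfl⟩ := natDegree_eq_zero.1 h4
    have hd1 : d₀ ≠ 0 := by rintro rfl; simp at hd0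
    refine ⟨a₀ / d₀, ?_⟩
    rw [hC, hC] at hu
    rw [map_div₀, eq_div_iff (by simpa using hd1), hu]

/-- The equation of the curve. -/
noncomputable def eqn (γ : ℂ) : (RatFunc ℂ)[X] :=
  X ^ 2 + C (algebraMap ℂ (RatFunc ℂ) γ) * X - C (RatFunc.X ^ 3)

theorem X_not_const (c : ℂ) : (RatFunc.X : RatFunc ℂ) ^ 3 ≠ algebraMap ℂ (RatFunc ℂ) c := by
  intro h
  have h1 : algebraMap ℂ[X] (RatFunc ℂ) (X ^ 3) = algebraMap ℂ[X] (RatFunc ℂ) (C c) := by
    rw [map_pow, RatFunc.algebraMap_X, h, IsScalarTower.algebraMap_apply ℂ ℂ[X] (RatFunc ℂ)]; rfl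
  have h2 := congrArg natDegree (IsFractionRing.injective ℂ[X] (RatFunc ℂ) h1)
  simp at h2

theorem eqn_natDegree (γ : ℂ) : (eqn γ).natDegree = 2 := by
  unfold eqn; compute_degree!

theorem eqn_monic (γ : ℂ) : (eqn γ).Monic := by
  unfold eqn; monicity!

theorem eqn_irred {γ : ℂ} (hγ : γ ≠ 0) : Irreducible (eqn γ) := by
  rw [irreducible_iff_roots_eq_zero_of_degree_le_three (by rw [eqn_natDegree])
    (by rw [eqn_natDegree]; norm_num), Multiset.eq_zero_iff_forall_notMem]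
  intro u hu
  have h1 : eval u (eqn γ) = 0 := ((mem_roots (eqn_monic γ).ne_zero).1 hu)
  simp only [eqn, eval_sub, eval_add, eval_pow, eval_X, eval_mul, eval_C] at h1
  have h2 : u * (u + algebraMap ℂ (RatFunc ℂ) γ) = RatFunc.X ^ 3 := by linear_combination h1
  obtain ⟨κ, rfl⟩ := no_param hγ h2
  exact X_not_const (κ * (κ + γ)) (by rw [← h2, map_mul, map_add])

theorem exists_field {B : Type} [CommRing B] [Algebra ℂ B] {γ : ℂ} (hγ : γ ≠ 0) {P U : B}
    (hP : ∀ μ : ℂ, IsUnit (P - algebraMap ℂ B μ)) (hU : U * (U + algebraMap ℂ B γ) = P ^ 3) :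
    ∃ (L : Type) (_ : Field L) (_ : Algebra ℂ L) (_ : L →ₐ[ℂ] B),
      Algebra.trdeg ℂ L = 1 ∧ IsEmpty (L ≃ₐ[ℂ] RatFunc ℂ) := by
  have hirr : Fact (Irreducible (eqn γ)) := ⟨eqn_irred hγ⟩
  have hunit : ∀ y : nonZeroDivisors ℂ[X], IsUnit (aeval P (y : ℂ[X])) := by
    rintro ⟨y, hy⟩
    have hy0 : y ≠ 0 := nonZeroDivisors.ne_zero hy
    have hs := (IsAlgClosed.splits y).eq_prod_roots
    change IsUnit (aeval P y)
    rw [hs, map_mul, aeval_C, map_multiset_prod]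
    refine IsUnit.mul ((IsUnit.mk0 _ (leadingCoeff_ne_zero.2 hy0)).map _) ?_
    rw [Multiset.map_map]
    refine Multiset.prod_induction _ _ (fun a b ha hb => ha.mul hb) isUnit_one ?_
    intro b hb
    obtain ⟨μ, _, rfl⟩ := Multiset.mem_map.1 hb
    simpa using hP μ
  let g : RatFunc ℂ →ₐ[ℂ] B := IsLocalization.liftAlgHom (M := nonZeroDivisors ℂ[X])
    (f := aeval P) hunit
  have hgX : g RatFunc.X = P := by
    rw [← RatFunc.algebraMap_X]
    simp only [g, IsLocalization.liftAlgHom_apply]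
    rw [IsLocalization.lift_eq]
    simp
  have hroot : (eqn γ).eval₂ g U = 0 := by
    simp only [eqn, eval₂_sub, eval₂_add, eval₂_pow, eval₂_X, eval₂_mul, eval₂_C, RingHom.coe_coe,
      map_pow, hgX, AlgHom.commutes]
    linear_combination hU
  refine ⟨AdjoinRoot (eqn γ), inferInstance, inferInstance, AdjoinRoot.liftAlgHom _ g U hroot,
    ?_, ⟨fun e => ?_⟩⟩
  · have : Module.Finite (RatFunc ℂ) (AdjoinRoot (eqn γ)) :=
      (AdjoinRoot.powerBasis (eqn_monic γ).ne_zero).finite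
    rw [← trdeg_add_eq ℂ (RatFunc ℂ) (A := AdjoinRoot (eqn γ)), trdeg_eq_zero (R := RatFunc ℂ),
      add_zero, ← trdeg_add_eq ℂ ℂ[X] (A := RatFunc ℂ), Polynomial.trdeg_of_isDomain]
    have : Algebra.IsAlgebraic ℂ[X] (RatFunc ℂ) := IsLocalization.isAlgebraic _ (nonZeroDivisors _)
    rw [trdeg_eq_zero, add_zero]
  · have h0 : ∀ (T : Type) [CommRing T] (f : RatFunc ℂ →+* T) (r : T), eval₂ f r (eqn γ) =
        r ^ 2 + f (algebraMap ℂ (RatFunc ℂ) γ) * r - f RatFunc.X ^ 3 := by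
      intro T _ f r
      simp only [eqn, eval₂_sub, eval₂_add, eval₂_pow, eval₂_X, eval₂_mul, eval₂_C]
      rw [map_pow]
    have h1 := AdjoinRoot.eval₂_root (eqn γ)
    rw [h0] at h1
    have h2 : AdjoinRoot.of (eqn γ) (algebraMap ℂ (RatFunc ℂ) γ) =
        algebraMap ℂ (AdjoinRoot (eqn γ)) γ := rfl
    have h3 : AdjoinRoot.root (eqn γ) * (AdjoinRoot.root (eqn γ) +
        algebraMap ℂ (AdjoinRoot (eqn γ)) γ) = AdjoinRoot.of (eqn γ) RatFunc.X ^ 3 := by
      rw [← h2]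
      linear_combination h1
    have h4 := congrArg e h3
    rw [map_mul, map_add, map_pow, AlgEquiv.commutes] at h4
    obtain ⟨κ, hκ⟩ := no_param hγ h4
    have h5 : AdjoinRoot.root (eqn γ) = algebraMap ℂ _ κ := by
      apply e.injective
      rw [hκ, AlgEquiv.commutes]
    rw [h5, ← map_add, ← map_mul, ← map_pow] at h3
    apply X_not_const (κ * (κ + γ))
    apply (AdjoinRoot.of (eqn γ)).injective
    rw [← h3]; rfl

end Pool.Agent.H388Z.QT
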