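import Mathlib

namespace Pool.Agent.H388Z.QT

variable {A : Type} [Ring A] [Algebra ℂ A]

theorem pow_qcomm {u v : A} {r : ℂ} (h : u * v = r • (v * u)) (a b : ℕ) :
    u ^ a * v ^ b = r ^ (a * b) • (v ^ b * u ^ a) := by
  have h1 : ∀ b : ℕ, u * v ^ b = r ^ b • (v ^ b * u) := by
    intro b
    induction b with
    | zero => simp
    | succ b ih =>
      rw [pow_succ, ← mul_assoc, ih, smul_mul_assoc, mul_assoc, h, mul_smul_comm, smul_smul,
        ← pow_succ, mul_assoc]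
  induction a with
  | zero => simp
  | succ a ih =>
    rw [pow_succ', mul_assoc, ih, mul_smul_comm, ← mul_assoc, h1, smul_mul_assoc, smul_smul,
      ← pow_add, mul_assoc, Nat.succ_mul]

/-- Ordered monomials. -/
def mo (x y z : A) (a b c : ℕ) : A := x ^ a * y ^ b * z ^ c

theorem mo_mul {x y z : A} {p q : ℂ} (h1 : y * x = p • (x * y)) (h2 : z * x = q • (x * z))
    (h3 : z * y = p • (y * z)) (a b c d e f : ℕ) :
    mo x y z a b c * mo x y z d e f =
      (q ^ (c * d) * p ^ (b * d + c * e)) • mo x y z (a + d) (b + e) (c + f) := by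
  unfold mo
  have e1 : x ^ a * y ^ b * z ^ c * (x ^ d * y ^ e * z ^ f) =
      x ^ a * y ^ b * (z ^ c * x ^ d) * y ^ e * z ^ f := by simp only [mul_assoc]
  rw [e1, pow_qcomm h2]
  have e2 : x ^ a * y ^ b * (q ^ (c * d) • (x ^ d * z ^ c)) * y ^ e * z ^ f =
      q ^ (c * d) • (x ^ a * (y ^ b * x ^ d) * (z ^ c * y ^ e) * z ^ f) := by
    simp only [mul_smul_comm, smul_mul_assoc, mul_assoc]
  rw [e2, pow_qcomm h1, pow_qcomm h3]
  simp only [mul_smul_comm, smul_mul_assoc, mul_assoc, smul_smul, pow_add]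
  congr 1
  ring

/-- The element of order two. -/
def PP (x y z : A) (p q : ℂ) : A :=
  mo x y z 2 0 0 + mo x y z 0 2 0 + mo x y z 0 0 2 + (q + p ^ 2) • mo x y z 1 1 0 +
    (1 + p) • mo x y z 0 1 1 + (1 + q) • mo x y z 1 0 1

/-- The element of order three. -/
def UU (x y z : A) (p q : ℂ) : A :=
  mo x y z 3 0 0 + mo x y z 0 3 0 + mo x y z 0 0 3 + (q + p + p ^ 3) • mo x y z 2 1 0 +
    (q + p + p ^ 3) • mo x y z 1 2 0 + (1 + p + p ^ 2) • mo x y z 0 2 1 +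
    (1 + p + p ^ 2) • mo x y z 0 1 2 + (1 + q + q ^ 2) • mo x y z 1 0 2 +
    (1 + q + q ^ 2) • mo x y z 2 0 1 + (q + 3 + 2 * p ^ 2) • mo x y z 1 1 1

theorem PU_comm {x y z : A} {q : ℂ} (hq : q ≠ 0) (h1 : y * x = q⁻¹ • (x * y))
    (h2 : z * x = q • (x * z)) (h3 : z * y = q⁻¹ • (y * z)) :
    PP x y z q⁻¹ q * UU x y z q⁻¹ q = UU x y z q⁻¹ q * PP x y z q⁻¹ q := by
  unfold PP UU
  simp only [mul_add, add_mul, smul_mul_assoc, mul_smul_comm, mo_mul h1 h2 h3, smul_smul,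
    Nat.reduceAdd, Nat.reduceMul]
  match_scalars <;> field_simp <;> ring

theorem PU_rel {x y z : A} {q : ℂ} (hq : q ≠ 0) (h1 : y * x = q⁻¹ • (x * y))
    (h2 : z * x = q • (x * z)) (h3 : z * y = q⁻¹ • (y * z)) :
    UU x y z q⁻¹ q * (UU x y z q⁻¹ q + ((q - 1) ^ 3 * q⁻¹ ^ 2) • mo x y z 1 1 1) =
      PP x y z q⁻¹ q * PP x y z q⁻¹ q * PP x y z q⁻¹ q := by
  unfold PP UU
  simp only [mul_add, add_mul, smul_mul_assoc, mul_smul_comm, mo_mul h1 h2 h3, smul_smul,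
    Nat.reduceAdd, Nat.reduceMul]
  match_scalars <;> field_simp <;> ring

end Pool.Agent.H388Z.QT
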