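import Mathlib
import Pool.Agent.H388Z.QT.Ident
import Pool.Agent.H388Z.QT.Curve

namespace Pool.Agent.H388Z.QT

open MvPolynomial

/-- Polynomials in two variables. -/
abbrev VV : Type := MvPolynomial (Fin 2) ℂ

/-- Rational functions in two variables. -/
abbrev FF : Type := FractionRing VV

/-- Rescaling the first variable. -/
noncomputable def sig (p : ℂ) : VV →ₐ[ℂ] VV := aeval ![C p * X 0, X 1]

theorem sig_X0 (p : ℂ) : sig p (X 0) = C p * X 0 := by simp [sig]

theorem sig_X1 (p : ℂ) : sig p (X 1) = X 1 := by simp [sig]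

theorem sig_C (p c : ℂ) : sig p (C c) = C c := by simp [sig]

theorem mon_eq (d : Fin 2 →₀ ℕ) (c : ℂ) :
    (monomial d c : VV) = C c * X 0 ^ (d 0) * X 1 ^ (d 1) := by
  rw [monomial_eq, Finsupp.prod_fintype _ _ (by simp), Fin.prod_univ_two, mul_assoc]

theorem sig_mon (p : ℂ) (d : Fin 2 →₀ ℕ) (c : ℂ) :
    sig p (monomial d c) = monomial d (p ^ (d 0) * c) := by
  rw [mon_eq, mon_eq, map_mul, map_mul, map_pow, map_pow, sig_X0, sig_X1, sig_C, map_mul, map_pow]
  ring

theorem coeff_sig (p : ℂ) (g : VV) (d : Fin 2 →₀ ℕ) :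
    coeff d (sig p g) = p ^ (d 0) * coeff d g := by
  classical
  induction g using MvPolynomial.induction_on' with
  | monomial e c =>
    rw [sig_mon, coeff_monomial, coeff_monomial]
    split_ifs with h
    · rw [h]
    · simp
  | add g h ih1 ih2 => rw [map_add, coeff_add, coeff_add, ih1, ih2, mul_add]

theorem support_sig {p : ℂ} (hp : p ≠ 0) (g : VV) : (sig p g).support = g.support := by
  ext d
  simp [mem_support_iff, coeff_sig, hp]

theorem sig_inj {p : ℂ} (hp : p ≠ 0) : Function.Injective (sig p) := by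
  rw [injective_iff_map_eq_zero]
  intro g hg
  rw [← support_eq_empty, ← support_sig hp, hg, support_zero]

theorem deg_sig {p : ℂ} (hp : p ≠ 0) (g : VV) : degreeOf 0 (sig p g) = degreeOf 0 g := by
  rw [degreeOf_eq_sup, degreeOf_eq_sup, support_sig hp]

theorem sig_sig (p r : ℂ) (g : VV) : sig p (sig r g) = sig (p * r) g := by
  ext d
  rw [coeff_sig, coeff_sig, coeff_sig, mul_pow, mul_assoc]

theorem sig_one (g : VV) : sig 1 g = g := by
  ext d
  rw [coeff_sig, one_pow, one_mul]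

/-- The second operator. -/
noncomputable def oy (p : ℂ) (g : VV) : VV := X 1 * sig p g

/-- The product operator. -/
noncomputable def ow (p : ℂ) (g : VV) : VV := X 0 * oy p g

theorem deg_oy {p : ℂ} (hp : p ≠ 0) (g : VV) : degreeOf 0 (oy p g) = degreeOf 0 g := by
  rw [oy, mul_comm, degreeOf_mul_X_of_ne _ (by decide), deg_sig hp]

theorem deg_ox {g : VV} (hg : g ≠ 0) : degreeOf 0 (X 0 * g) = degreeOf 0 g + 1 := by
  rw [mul_comm]; exact (degreeOf_mul_X_eq_degreeOf_add_one_iff 0 g).2 hg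

theorem oy_ne {p : ℂ} (hp : p ≠ 0) {g : VV} (hg : g ≠ 0) : oy p g ≠ 0 :=
  mul_ne_zero (X_ne_zero _) (fun h => hg (sig_inj hp (by rw [h, map_zero])))

theorem ow_ne {p : ℂ} (hp : p ≠ 0) {g : VV} (hg : g ≠ 0) : ow p g ≠ 0 :=
  mul_ne_zero (X_ne_zero _) (oy_ne hp hg)

theorem deg_ow {p : ℂ} (hp : p ≠ 0) {g : VV} (hg : g ≠ 0) :
    degreeOf 0 (ow p g) = degreeOf 0 g + 1 := by
  rw [ow, deg_ox (oy_ne hp hg), deg_oy hp]

theorem deg_add_le {k : ℕ} {f g : VV} (hf : degreeOf 0 f ≤ k) (hg : degreeOf 0 g ≤ k) :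
    degreeOf 0 (f + g) ≤ k := le_trans (degreeOf_add_le _ _ _) (max_le hf hg)

theorem deg_smul_le {k : ℕ} {f : VV} (c : ℂ) (hf : degreeOf 0 f ≤ k) :
    degreeOf 0 (c • f) ≤ k := by
  rw [smul_eq_C_mul]; exact le_trans (degreeOf_C_mul_le _ _ _) hf

theorem op_ne {p : ℂ} (hp : p ≠ 0) (c₁ c₂ c₃ c₄ : ℂ) {g : VV} (hg : g ≠ 0) :
    X 0 * (X 0 * ow p (ow p g)) + (oy p (oy p (ow p (ow p g))) + g + c₁ • ow p (ow p (ow p g)) +
      c₂ • oy p (ow p g) + c₃ • (X 0 * ow p g) + c₄ • ow p (ow p g)) ≠ 0 := by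
  have h1 := ow_ne hp hg
  have h2 := ow_ne hp h1
  have d1 := deg_ow hp hg
  have d2 := deg_ow hp h1
  have d3 := deg_ow hp h2
  have d4 := deg_ox h2
  have d5 := deg_ox (mul_ne_zero (X_ne_zero (0 : Fin 2)) h2)
  have d6 := deg_ox h1
  have hle : degreeOf 0 (oy p (oy p (ow p (ow p g))) + g + c₁ • ow p (ow p (ow p g)) +
      c₂ • oy p (ow p g) + c₃ • (X 0 * ow p g) + c₄ • ow p (ow p g)) ≤ degreeOf 0 g + 3 := by
    refine deg_add_le (deg_add_le (deg_add_le (deg_add_le (deg_add_le ?_ ?_) (deg_smul_le _ ?_))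
      (deg_smul_le _ ?_)) (deg_smul_le _ ?_)) (deg_smul_le _ ?_)
    · rw [deg_oy hp, deg_oy hp]; omega
    · omega
    · omega
    · rw [deg_oy hp]; omega
    · omega
    · omega
  intro h
  have h3 := degreeOf_add_eq_of_degreeOf_lt (i := (0 : Fin 2))
    (p := X 0 * (X 0 * ow p (ow p g))) (lt_of_le_of_lt hle (by omega))
  rw [h, degreeOf_zero] at h3
  omega

section alg

variable {A : Type} [Ring A] [Algebra ℂ A]

/-- Ordered evaluation. -/
noncomputable def Psi (x y : A) : VV →ₗ[ℂ] A :=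
  (basisMonomials (Fin 2) ℂ).constr ℂ (fun d => x ^ (d 0) * y ^ (d 1))

theorem Psi_mon (x y : A) (d : Fin 2 →₀ ℕ) (c : ℂ) :
    Psi x y (monomial d c) = c • (x ^ (d 0) * y ^ (d 1)) := by
  have e : (monomial d c : VV) = c • basisMonomials (Fin 2) ℂ d := by
    simp [smul_monomial]
  rw [e, map_smul, Psi, Module.Basis.constr_basis]

theorem Psi_one (x y : A) : Psi x y 1 = 1 := by
  have := Psi_mon x y 0 1
  simpa using this

theorem x_Psi (x y : A) (g : VV) : x * Psi x y g = Psi x y (X 0 * g) := by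
  induction g using MvPolynomial.induction_on' with
  | monomial d c =>
    rw [X, monomial_mul, Psi_mon, Psi_mon]
    simp [pow_add, mul_assoc]
  | add g h ih1 ih2 => rw [map_add, mul_add, mul_add, map_add, ih1, ih2]

theorem y_Psi {x y : A} {p : ℂ} (h : y * x = p • (x * y)) (g : VV) :
    y * Psi x y g = Psi x y (oy p g) := by
  unfold oy
  induction g using MvPolynomial.induction_on' with
  | monomial d c =>
    rw [sig_mon, X, monomial_mul, Psi_mon, Psi_mon]
    have := pow_qcomm h 1 (d 0)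
    rw [pow_one, one_mul] at this
    rw [mul_smul_comm, ← mul_assoc, this]
    simp [pow_add, mul_assoc, smul_smul, mul_comm]
  | add g h ih1 ih2 => rw [map_add, mul_add, map_add, mul_add, map_add, ih1, ih2]

variable [Algebra FF A] [IsScalarTower ℂ FF A]

theorem clear {x y : A} {p : ℂ} (h : y * x = p • (x * y)) {n : ℕ}
    (hx : x ^ n = algebraMap FF A (algebraMap VV FF (X 0)))
    (hy : y ^ n = algebraMap FF A (algebraMap VV FF (X 1))) {b : A}
    (hb : b ∈ Algebra.adjoin FF {x, y}) :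
    ∃ c : FF, c ≠ 0 ∧ ∃ g, c • b = Psi x y g := by
  let O : Subalgebra ℂ A :=
    { carrier := {b | ∀ g', ∃ g, b * Psi x y g' = Psi x y g}
      mul_mem' := by
        intro a b ha hb g'
        obtain ⟨g, hg⟩ := hb g'
        obtain ⟨g₂, hg₂⟩ := ha g
        exact ⟨g₂, by rw [mul_assoc, hg, hg₂]⟩
      add_mem' := by
        intro a b ha hb g'
        obtain ⟨g, hg⟩ := hb g'
        obtain ⟨g₂, hg₂⟩ := ha g'
        exact ⟨g₂ + g, by rw [add_mul, hg, hg₂, map_add]⟩
      algebraMap_mem' := by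
        intro c g'
        exact ⟨c • g', by rw [map_smul, Algebra.smul_def]⟩ }
  have hxO : x ∈ O := fun g' => ⟨_, x_Psi x y g'⟩
  have hyO : y ∈ O := fun g' => ⟨_, y_Psi h g'⟩
  have hV : ∀ a : VV, algebraMap FF A (algebraMap VV FF a) ∈ O := by
    intro a
    induction a using MvPolynomial.induction_on with
    | C c =>
      have : algebraMap FF A (algebraMap VV FF (C c)) = algebraMap ℂ A c := by
        rw [IsScalarTower.algebraMap_apply ℂ FF A, IsScalarTower.algebraMap_apply ℂ VV FF]; rfl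
      rw [this]; exact O.algebraMap_mem c
    | add f g h1 h2 => rw [map_add, map_add]; exact O.add_mem h1 h2
    | mul_X f i h1 =>
      rw [map_mul, map_mul]
      refine O.mul_mem h1 ?_
      fin_cases i
      · exact hx ▸ O.pow_mem hxO n
      · exact hy ▸ O.pow_mem hyO n
  have key : ∃ c : VV, c ≠ 0 ∧ algebraMap VV FF c • b ∈ O := by
    induction hb using Algebra.adjoin_induction with
    | mem a ha =>
      rcases ha with rfl | rfl
      · exact ⟨1, one_ne_zero, by simpa using hxO⟩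
      · exact ⟨1, one_ne_zero, by simpa using hyO⟩
    | algebraMap f =>
      obtain ⟨a, c, hc, rfl⟩ := IsFractionRing.div_surjective (A := VV) f
      have hc0 := nonZeroDivisors.ne_zero hc
      refine ⟨c, hc0, ?_⟩
      rw [Algebra.smul_def, ← map_mul, mul_div_cancel₀ _ (by simpa using hc0)]
      exact hV a
    | add a b _ _ h1 h2 =>
      obtain ⟨c, hc, h1⟩ := h1
      obtain ⟨c', hc', h2⟩ := h2
      refine ⟨c * c', mul_ne_zero hc hc', ?_⟩
      have e : algebraMap VV FF (c * c') • (a + b) =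
          algebraMap FF A (algebraMap VV FF c') * (algebraMap VV FF c • a) +
          algebraMap FF A (algebraMap VV FF c) * (algebraMap VV FF c' • b) := by
        rw [← Algebra.smul_def, ← Algebra.smul_def, smul_smul, smul_smul, map_mul, smul_add,
          mul_comm (algebraMap VV FF c')]
      rw [e]
      exact O.add_mem (O.mul_mem (hV _) h1) (O.mul_mem (hV _) h2)
    | mul a b _ _ h1 h2 =>
      obtain ⟨c, hc, h1⟩ := h1
      obtain ⟨c', hc', h2⟩ := h2
      refine ⟨c * c', mul_ne_zero hc hc', ?_⟩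
      rw [map_mul, mul_smul_mul_comm]
      exact O.mul_mem h1 h2
  obtain ⟨c, hc, h1⟩ := key
  obtain ⟨g, hg⟩ := h1 1
  exact ⟨algebraMap VV FF c, by simpa using hc, g, by rw [← hg, Psi_one, mul_one]⟩

theorem fin_dim {x y : A} {p : ℂ} (h : y * x = p • (x * y)) {n : ℕ} (hn : 0 < n)
    (hx : x ^ n = algebraMap FF A (algebraMap VV FF (X 0)))
    (hy : y ^ n = algebraMap FF A (algebraMap VV FF (X 1)))
    (hgen : ∀ b : A, b ∈ Algebra.adjoin FF {x, y}) : Module.Finite FF A := by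
  let W : Submodule FF A :=
    Submodule.span FF (Set.range (fun ij : Fin n × Fin n => x ^ (ij.1 : ℕ) * y ^ (ij.2 : ℕ)))
  have h1 : ∀ i j : ℕ, x ^ i * y ^ j ∈ W := by
    intro i j
    have e : x ^ i * y ^ j = (algebraMap VV FF (X 0) ^ (i / n) * algebraMap VV FF (X 1) ^ (j / n)) •
        (x ^ (i % n) * y ^ (j % n)) := by
      rw [mul_smul_mul_comm, Algebra.smul_def, Algebra.smul_def, map_pow, map_pow, ← hx, ← hy,
        ← pow_mul, ← pow_mul, ← pow_add, ← pow_add, Nat.div_add_mod, Nat.div_add_mod]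
    rw [e]
    exact W.smul_mem _ (Submodule.subset_span
      ⟨(⟨i % n, Nat.mod_lt _ hn⟩, ⟨j % n, Nat.mod_lt _ hn⟩), rfl⟩)
  have h2 : ∀ g, Psi x y g ∈ W := by
    intro g
    induction g using MvPolynomial.induction_on' with
    | monomial d c =>
      rw [Psi_mon, ← algebraMap_smul FF c]
      exact W.smul_mem _ (h1 _ _)
    | add g h ih1 ih2 => rw [map_add]; exact W.add_mem ih1 ih2
  have h3 : W = ⊤ := by
    rw [eq_top_iff]
    intro b _
    obtain ⟨c, hc, g, hg⟩ := clear h hx hy (hgen b)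
    exact (W.smul_mem_iff hc).1 (hg ▸ h2 g)
  exact ⟨h3 ▸ Submodule.fg_span (Set.finite_range _)⟩

theorem main_abstract {x y : A} {q : ℂ} (hq : q ≠ 0) (hq1 : q ≠ 1) (hxy : x * y = q • (y * x))
    {n : ℕ} (hn : 0 < n) (hx : x ^ n = algebraMap FF A (algebraMap VV FF (X 0)))
    (hy : y ^ n = algebraMap FF A (algebraMap VV FF (X 1)))
    (hgen : ∀ b : A, b ∈ Algebra.adjoin FF {x, y}) (hinj : Function.Injective (Psi x y)) :
    ∃ (L : Type) (_ : Field L) (_ : Algebra ℂ L) (f : L →ₐ[ℂ] A),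
      Function.Injective f ∧ Algebra.trdeg ℂ L = 1 ∧ IsEmpty (L ≃ₐ[ℂ] RatFunc ℂ) := by
  have h : y * x = q⁻¹ • (x * y) := by rw [hxy, smul_smul, inv_mul_cancel₀ hq, one_smul]
  have hp : q⁻¹ ≠ 0 := inv_ne_zero hq
  have hnt : Nontrivial A := hinj.nontrivial
  have hfin := fin_dim h hn hx hy hgen
  have hxu : IsUnit x := (isUnit_pow_iff hn.ne').1
    (hx ▸ (IsUnit.mk0 _ (by simp)).map (algebraMap FF A))
  have hyu : IsUnit y := (isUnit_pow_iff hn.ne').1
    (hy ▸ (IsUnit.mk0 _ (by simp)).map (algebraMap FF A))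
  obtain ⟨w, hw⟩ := hxu.mul hyu
  obtain ⟨z, hz⟩ : ∃ z : A, z = ↑w⁻¹ := ⟨_, rfl⟩
  have hwz : x * y * z = 1 := by rw [← hw, hz]; simp
  have hzw : z * (x * y) = 1 := by rw [← hw, hz]; simp
  have h2 : z * x = q • (x * z) := by
    have e : x * (x * y) = q • (x * y * x) := by
      conv_lhs => rw [hxy]
      rw [mul_smul_comm, mul_assoc]
    calc z * x = z * x * (x * y * z) := by rw [hwz, mul_one]
      _ = z * (x * (x * y)) * z := by simp only [mul_assoc]
      _ = q • (z * (x * y) * x * z) := by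
        rw [e]; simp only [mul_smul_comm, smul_mul_assoc, mul_assoc]
      _ = q • (x * z) := by rw [hzw, one_mul]
  have h3 : z * y = q⁻¹ • (y * z) := by
    have e : y * (x * y) = q⁻¹ • (x * y * y) := by
      rw [← mul_assoc, h, smul_mul_assoc]
    calc z * y = z * y * (x * y * z) := by rw [hwz, mul_one]
      _ = z * (y * (x * y)) * z := by simp only [mul_assoc]
      _ = q⁻¹ • (z * (x * y) * y * z) := by
        rw [e]; simp only [mul_smul_comm, smul_mul_assoc, mul_assoc]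
      _ = q⁻¹ • (y * z) := by rw [hzw, one_mul]
  have hcomm := PU_comm hq h h2 h3
  have hrel := PU_rel hq h h2 h3
  have hm : mo x y z 1 1 1 = 1 := by simpa [mo] using hwz
  rw [hm] at hrel
  have hreg : ∀ (μ : ℂ) (b : A), (PP x y z q⁻¹ q - algebraMap ℂ A μ) * b = 0 → b = 0 := by
    intro μ b hb
    obtain ⟨c, hc, g, hg⟩ := clear h hx hy (hgen (z * (z * b)))
    have hw1 : ∀ g, x * y * Psi x y g = Psi x y (ow q⁻¹ g) := by
      intro g; rw [mul_assoc, y_Psi h, x_Psi, ow]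
    have hw2 : ∀ a : A, x * y * (z * a) = a := by
      intro a; rw [← mul_assoc, hwz, one_mul]
    have hw3 : ∀ a : A, z * (x * y * a) = a := by
      intro a; rw [← mul_assoc, hzw, one_mul]
    have e1 : Psi x y (ow q⁻¹ (ow q⁻¹ g)) = c • b := by
      rw [← hw1, ← hw1, ← hg, mul_smul_comm, mul_smul_comm, hw2, hw2]
    have e2 : z * Psi x y (ow q⁻¹ (ow q⁻¹ g)) = Psi x y (ow q⁻¹ g) := by rw [← hw1, hw3]
    have e3 : z * Psi x y (ow q⁻¹ g) = Psi x y g := by rw [← hw1, hw3]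
    have e4 : (PP x y z q⁻¹ q - algebraMap ℂ A μ) * Psi x y (ow q⁻¹ (ow q⁻¹ g)) = 0 := by
      rw [e1, mul_smul_comm, hb, smul_zero]
    have e5 : Psi x y (X 0 * (X 0 * ow q⁻¹ (ow q⁻¹ g)) + (oy q⁻¹ (oy q⁻¹ (ow q⁻¹ (ow q⁻¹ g))) + g +
        (q + q⁻¹ ^ 2) • ow q⁻¹ (ow q⁻¹ (ow q⁻¹ g)) + (1 + q⁻¹) • oy q⁻¹ (ow q⁻¹ g) +
        (1 + q) • (X 0 * ow q⁻¹ g) + (-μ) • ow q⁻¹ (ow q⁻¹ g))) = 0 := by
      rw [← e4]
      simp only [map_add, map_smul, ← x_Psi, ← y_Psi h]
      rw [← hw1 (ow q⁻¹ (ow q⁻¹ g))]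
      simp only [PP, mo, pow_zero, pow_one, pow_two, mul_one, one_mul, sub_mul, add_mul,
        smul_mul_assoc, mul_assoc, e2, e3, ← Algebra.smul_def]
      module
    have hg0 : g = 0 := by
      by_contra hne
      exact op_ne hp _ _ _ _ hne (hinj (e5.trans (map_zero _).symm))
    rw [hg0, map_zero] at hg
    have e6 := (smul_eq_zero.1 hg).resolve_left hc
    rw [← hw2 b, ← hw2 (z * b), e6, mul_zero, mul_zero]
  obtain ⟨P, hP⟩ : ∃ P, P = PP x y z q⁻¹ q := ⟨_, rfl⟩
  obtain ⟨U, hU⟩ : ∃ U, U = UU x y z q⁻¹ q := ⟨_, rfl⟩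
  rw [← hP, ← hU] at hcomm hrel
  rw [← hP] at hreg
  let B : Subalgebra FF A := Algebra.adjoin FF {P, U}
  have hBc : IsMulCommutative B := Algebra.isMulCommutative_adjoin FF (by
    rintro a (rfl | rfl) b (rfl | rfl)
    · rfl
    · exact hcomm
    · exact hcomm.symm
    · rfl)
  letI : CommRing B := { (inferInstance : Ring B) with mul_comm := hBc.is_comm.comm }
  have hart : IsArtinianRing B := isArtinian_of_tower FF inferInstance
  let P' : B := ⟨P, Algebra.subset_adjoin (Or.inl rfl)⟩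
  let U' : B := ⟨U, Algebra.subset_adjoin (Or.inr rfl)⟩
  have hγ : (q - 1) ^ 3 * q⁻¹ ^ 2 ≠ 0 :=
    mul_ne_zero (pow_ne_zero _ (sub_ne_zero.2 hq1)) (pow_ne_zero _ hp)
  obtain ⟨L, _, _, f, h4, h5⟩ := exists_field (B := B) hγ (P := P') (U := U') (by
    intro μ
    apply IsArtinianRing.isUnit_of_mem_nonZeroDivisors
    rw [mem_nonZeroDivisors_iff_left]
    intro b hb
    apply Subtype.ext
    exact hreg μ b (congrArg Subtype.val hb)) (by
    apply Subtype.ext
    have e : ((algebraMap ℂ B ((q - 1) ^ 3 * q⁻¹ ^ 2) : B) : A) =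
        ((q - 1) ^ 3 * q⁻¹ ^ 2) • (1 : A) := by
      rw [← Algebra.algebraMap_eq_smul_one]; rfl
    change U * (U + ((algebraMap ℂ B ((q - 1) ^ 3 * q⁻¹ ^ 2) : B) : A)) = P ^ 3
    rw [e, hrel, pow_three'])
  exact ⟨L, inferInstance, inferInstance, (B.val.restrictScalars ℂ).comp f,
    RingHom.injective _, h4, h5⟩

end alg

end Pool.Agent.H388Z.QT
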