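import Mathlib
import Pool.Agent.H388Z.QT.Alg

namespace Pool.Agent.H388Z.QT

open MvPolynomial

/-- A copy of the field of rational functions, seen over its subfield of powers. -/
def Fp (_n : ℕ) : Type := FractionRing VV

noncomputable instance (n : ℕ) : Field (Fp n) := inferInstanceAs (Field (FractionRing VV))

/-- The inclusion of polynomials. -/
noncomputable def inc (n : ℕ) : VV →+* Fp n := algebraMap VV (FractionRing VV)

theorem inc_inj (n : ℕ) : Function.Injective (inc n) := IsFractionRing.injective VV FF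

theorem exp_inj (n : ℕ) [NeZero n] :
    Function.Injective ((inc n).comp (expand n : VV →ₐ[ℂ] VV).toRingHom) :=
  (inc_inj n).comp (expand_injective (Nat.pos_of_neZero n))

/-- The power map. -/
noncomputable def iot (n : ℕ) [NeZero n] : FF →+* Fp n := IsFractionRing.lift (exp_inj n)

theorem iot_alg (n : ℕ) [NeZero n] (g : VV) : iot n (algebraMap VV FF g) = inc n (expand n g) :=
  IsFractionRing.lift_algebraMap (exp_inj n) g

noncomputable instance (n : ℕ) [NeZero n] : Algebra FF (Fp n) := (iot n).toAlgebra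

theorem smul_Fp (n : ℕ) [NeZero n] (c : FF) (f : Fp n) : c • f = iot n c * f := rfl

theorem sg_inj (n : ℕ) {p : ℂ} (hp : p ≠ 0) :
    Function.Injective ((inc n).comp (sig p).toRingHom) := (inc_inj n).comp (sig_inj hp)

/-- The rescaling of rational functions. -/
noncomputable def sigF (n : ℕ) {p : ℂ} (hp : p ≠ 0) : Fp n →+* Fp n :=
  (IsFractionRing.lift (A := VV) (K := FF) (sg_inj n hp) : FF →+* Fp n)

theorem sigF_inc (n : ℕ) {p : ℂ} (hp : p ≠ 0) (g : VV) : sigF n hp (inc n g) = inc n (sig p g) :=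
  IsFractionRing.lift_algebraMap (A := VV) (K := FF) (sg_inj n hp) g

theorem Fp_ext {n : ℕ} {T : Type} [CommRing T] {f g : Fp n →+* T}
    (h : ∀ a, f (inc n a) = g (inc n a)) : f = g :=
  IsLocalization.ringHom_ext (S := FF) (nonZeroDivisors VV) (RingHom.ext h)

theorem sigF_iot (n : ℕ) [NeZero n] {p : ℂ} (hp : p ≠ 0) (hpn : p ^ n = 1) (c : FF) :
    sigF n hp (iot n c) = iot n c := by
  have : (sigF n hp).comp (iot n) = iot n := by
    apply IsLocalization.ringHom_ext (nonZeroDivisors VV)
    apply MvPolynomial.ringHom_ext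
    · intro r
      simp only [RingHom.comp_apply, iot_alg, sigF_inc, expand_C, sig_C]
    · intro i
      simp only [RingHom.comp_apply, iot_alg, sigF_inc, expand_X, map_pow]
      fin_cases i
      · simp only [Fin.zero_eta, sig_X0]
        rw [← map_pow, mul_pow, ← map_pow, hpn, map_one, one_mul, map_pow]
      · simp only [Fin.mk_one, sig_X1]
  exact RingHom.congr_fun this c

/-- The rescaling as a linear map. -/
noncomputable def sigL (n : ℕ) [NeZero n] {p : ℂ} (hp : p ≠ 0) (hpn : p ^ n = 1) :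
    Module.End FF (Fp n) where
  toFun := sigF n hp
  map_add' := map_add _
  map_smul' c f := by rw [smul_Fp, map_mul, sigF_iot n hp hpn]; rfl

/-- First operator. -/
noncomputable def Xop (n : ℕ) [NeZero n] : Module.End FF (Fp n) :=
  LinearMap.mulLeft FF (inc n (X 0))

/-- Second operator. -/
noncomputable def Yop (n : ℕ) [NeZero n] {p : ℂ} (hp : p ≠ 0) (hpn : p ^ n = 1) :
    Module.End FF (Fp n) := LinearMap.mulLeft FF (inc n (X 1)) * sigL n hp hpn

theorem Xop_apply (n : ℕ) [NeZero n] (f : Fp n) : Xop n f = inc n (X 0) * f := rfl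

theorem Yop_apply (n : ℕ) [NeZero n] {p : ℂ} (hp : p ≠ 0) (hpn : p ^ n = 1) (f : Fp n) :
    Yop n hp hpn f = inc n (X 1) * sigF n hp f := rfl

theorem Xop_pow (n : ℕ) [NeZero n] (k : ℕ) (f : Fp n) : (Xop n ^ k) f = inc n (X 0) ^ k * f := by
  induction k with
  | zero => simp
  | succ k ih => rw [pow_succ', Module.End.mul_apply, ih, Xop_apply]; ring

theorem Yop_pow (n : ℕ) [NeZero n] {p : ℂ} (hp : p ≠ 0) (hpn : p ^ n = 1) (k : ℕ) (f : Fp n) :
    (Yop n hp hpn ^ k) f = inc n (X 1) ^ k * sigF n (pow_ne_zero k hp) f := by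
  induction k with
  | zero =>
    have : sigF n (pow_ne_zero 0 hp) = RingHom.id _ := by
      apply Fp_ext
      intro a
      rw [sigF_inc, pow_zero, sig_one]; rfl
    rw [this]; simp
  | succ k ih =>
    have : (sigF n hp).comp (sigF n (pow_ne_zero k hp)) = sigF n (pow_ne_zero (k + 1) hp) := by
      apply Fp_ext
      intro a
      rw [RingHom.comp_apply, sigF_inc, sigF_inc, sigF_inc, sig_sig, pow_succ']
    rw [pow_succ', Module.End.mul_apply, ih, Yop_apply, map_mul, map_pow, sigF_inc, sig_X1,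
      ← this, RingHom.comp_apply]
    ring

theorem Xop_n (n : ℕ) [NeZero n] :
    Xop n ^ n = algebraMap FF (Module.End FF (Fp n)) (algebraMap VV FF (X 0)) := by
  ext f
  rw [Xop_pow, Module.algebraMap_end_apply, smul_Fp, iot_alg, expand_X, map_pow]

theorem Yop_n (n : ℕ) [NeZero n] {p : ℂ} (hp : p ≠ 0) (hpn : p ^ n = 1) :
    Yop n hp hpn ^ n = algebraMap FF (Module.End FF (Fp n)) (algebraMap VV FF (X 1)) := by
  ext f
  have : sigF n (pow_ne_zero n hp) = RingHom.id _ := by
    apply Fp_ext
    intro a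
    rw [sigF_inc, hpn, sig_one]; rfl
  rw [Yop_pow, Module.algebraMap_end_apply, smul_Fp, iot_alg, expand_X, map_pow, this]; rfl

theorem XY_op (n : ℕ) [NeZero n] {q : ℂ} (hq : q ≠ 0) (hpn : q⁻¹ ^ n = 1) :
    Xop n * Yop n (inv_ne_zero hq) hpn = algebraMap FF (Module.End FF (Fp n)) (algebraMap ℂ FF q) *
      (Yop n (inv_ne_zero hq) hpn * Xop n) := by
  ext f
  have e : algebraMap ℂ FF q = algebraMap VV FF (C q) := by
    rw [IsScalarTower.algebraMap_apply ℂ VV FF]; rfl
  have e2 : inc n (C q) * inc n (C q⁻¹) = 1 := by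
    rw [← map_mul, ← map_mul, mul_inv_cancel₀ hq, map_one, map_one]
  simp only [Module.End.mul_apply, Xop_apply, Yop_apply, Module.algebraMap_end_apply, smul_Fp]
  rw [e, iot_alg, expand_C, map_mul, sigF_inc, sig_X0, map_mul]
  linear_combination (-(inc n (X 0) * inc n (X 1) * sigF n (inv_ne_zero hq) f)) * e2

theorem Psi_inj {A : Type} [Ring A] [Algebra ℂ A] [Algebra FF A] [IsScalarTower ℂ FF A] {x y : A}
    (n : ℕ) [NeZero n] {p : ℂ} (hp : p ≠ 0) (hpn : p ^ n = 1) (φ : A →ₐ[FF] Module.End FF (Fp n))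
    (hx : φ x = Xop n) (hy : φ y = Yop n hp hpn) : Function.Injective (Psi x y) := by
  have key : ∀ g, φ (Psi x y g) 1 = inc n g := by
    intro g
    induction g using MvPolynomial.induction_on' with
    | monomial d c =>
      have e : algebraMap ℂ FF c = algebraMap VV FF (C c) := by
        rw [IsScalarTower.algebraMap_apply ℂ VV FF]; rfl
      rw [Psi_mon, ← algebraMap_smul FF c, map_smul, map_mul, map_pow, map_pow, hx, hy,
        LinearMap.smul_apply, Module.End.mul_apply, Yop_pow, Xop_pow, smul_Fp, e, iot_alg,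
        expand_C, mon_eq, RingHom.map_one]
      simp only [map_mul, map_pow]
      ring
    | add g h ih1 ih2 => rw [map_add, map_add, LinearMap.add_apply, ih1, ih2, map_add]
  intro g g' h
  apply inc_inj n
  rw [← key, ← key, h]

end Pool.Agent.H388Z.QT
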